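import Mathlib
import Pool.Agent.TH768.CC.Defs
import Pool.Agent.TH768.CC.Final

/-!
# Mahloness is needed for Choose to win `U(κ, ≤ω)` at a least inaccessible cardinal

Let `κ` be inaccessible. If Choose has a winning strategy in the weak cut and choose game
`U(κ, ≤ω)`, then `κ` is Mahlo, or Choose has a winning strategy in `U(μ, ≤ω)` for some regular
uncountable `μ < κ`. (In the second case the game at `κ` is trivial: Choose only looks at a subset
of size `μ`.) So the least cardinal at which Choose wins is never an inaccessible cardinal that is
not Mahlo; in particular it is never the least inaccessible cardinal.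

Proof. Suppose that Choose wins at `κ` by a strategy `σ` but not at smaller cardinals. Consider
positions (finite plays following `σ`), a position `q` with current set `S q`.
* Each function on `κ` with less than `κ` values is constant on `S p` for some `p ≤ q`.
* There are `q₀` and a least nowhere constant function `f : κ → κ` below `q₀`, as an infinite
  descending sequence of such functions would have a common point of definition.
* The values of `f` are eventually closed under each function. So if `κ` is not Mahlo, the values
  of `f` are singular on some `S p`; by minimality their cofinality is a constant, and there are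
  cofinal sets `E x ⊆ f x` with `|E x| ≤ ρ < κ`. The `ω`-sequences in `E x` are less than `κ` many.
* There is a function `g : κ^ω → κ` which takes all values on the set of branches of each
  everywhere `κ`-splitting tree (a Bernstein construction at each fast limit of cofinality `ω`).
  So some `ν` is not of the form `g s`, `s` an `ω`-sequence in `E x`, and `ν` does not depend on `x`
  on some `S p`. But Cut can force Choose to decide elements of the sets `E x` along a `κ`-splitting
  tree of positions below `p`, and some branch `s` of this tree has `g s = ν`.
-/

set_option autoImplicit false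

namespace Pool.Agent.Results.MP_21de40_lc.MahloNeeded

open Cardinal Pool.Agent.TH768.CC

universe u

theorem result :
    -- if Choose wins at an inaccessible `κ` but at no smaller regular uncountable cardinal,
    -- then `κ` is Mahlo
    (∀ κ : Cardinal.{u}, κ.IsInaccessible → ChooseWins κ.ord.ToType →
      (∀ μ : Cardinal.{u}, μ < κ → μ.IsRegular → ℵ₀ < μ → ¬ ChooseWins μ.ord.ToType) →
      Mahlo κ) ∧
    -- so at the least inaccessible cardinal, Choose wins iff he wins at some smaller regular
    -- uncountable cardinal
    ∀ κ : Cardinal.{u}, κ.IsInaccessible → (∀ μ : Cardinal.{u}, μ < κ → ¬ μ.IsInaccessible) →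
      (ChooseWins κ.ord.ToType ↔
        ∃ μ : Cardinal.{u}, μ < κ ∧ μ.IsRegular ∧ ℵ₀ < μ ∧ ChooseWins μ.ord.ToType) := by
  refine ⟨?_, ?_⟩
  · intro κ hκ h hsmall
    rcases smaller hκ h with h1 | ⟨μ, h1, h2, h3, h4⟩
    · exact h1
    · exact absurd h4 (hsmall μ h1 h2 h3)
  · intro κ hκ hleast
    constructor
    · intro h
      rcases smaller hκ h with h1 | h1
      · exfalso
        obtain ⟨μ, hμ, hμ'⟩ := h1.2 {a | a < κ.ord} ⟨fun a ha => ha, fun a ha =>
          ⟨Order.succ a, (Cardinal.isSuccLimit_ord hκ.aleph0_lt.le).succ_lt ha, Order.lt_succ a⟩,
          fun a ha _ _ => ha⟩
        exact hleast μ (ord_lt_ord.1 hμ') hμ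
      · exact h1
    · rintro ⟨μ, hμ, -, -, h⟩
      exact mono hμ.le h

end Pool.Agent.Results.MP_21de40_lc.MahloNeeded
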